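import Pool.Agent.H24.NearConvex

set_option autoImplicit false

namespace Pool.Agent.Results.MP_74c05d_an.Q1False

open Pool.Agent.H24.NearConvex

theorem result (n : ℕ) (hn : 2 ≤ n) : ∃ C : Set (EuclideanSpace ℝ (Fin n)),
    C.Nonempty ∧ NearlyConvex C ∧ ∀ f : EuclideanSpace ℝ (Fin n) → EReal, ProperLscConvex f →
      C ≠ dom (subdiff f) ∧ C ≠ ran (subdiff f) := by
  obtain ⟨m, rfl⟩ : ∃ m, n = m + 2 := ⟨n - 2, by omega⟩
  exact ⟨bad m, bad_ne m, bad_nc m, fun f hf => not_dom_ran m _ (closed_subdiff f hf)⟩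

end Pool.Agent.Results.MP_74c05d_an.Q1False
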